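import Pool.Agent.Helper80.JetMain

/-!
The equi-optimality question for the jet spaces `J^k` has a negative answer for every `k ≥ 3`.

The counterexample is the turn-back geodesic attached to the polynomial `F(x) = (3x - x³)/2`: its
`x`-coordinate solves `x' = √(1 - F(x)²)` and runs monotonically from `-1` to `1`. Arcs that start
far out are close to a vertical line and are minimizing for a long time (a calibration together
with an a priori bound on competitors), while the symmetric arcs around `x = 0` are not minimizing
(a competitor is built by Lagrange interpolation at far-away nodes). Hence the cut time is finite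
for some starting points and arbitrarily large for others.

All definitions used in the statement are in `Pool.Agent.Helper80.JetDefs`.
-/

open Pool.Agent.Helper80.JetSpace

/-- For every `k ≥ 3` some geodesic of the jet space `J^k` is not equi-optimal. -/
theorem Pool.Agent.Results.MP_8ed827_gt.TurnBackNotEquiOptimal.result :
    ∀ k : ℕ, 3 ≤ k → ∃ γ : ℝ → Jet k, IsGeodesic γ ∧ ¬ EquiOptimal γ := by
  intro k hk
  obtain ⟨γ, hγ, s, s', -, hlt⟩ := main k hk
  exact ⟨γ, hγ, fun h => absurd (h s s') hlt.ne⟩
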